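import Mathlib
import Pool.Agent.H.MP_159dfd_an.QG

set_option autoImplicit false

namespace Pool.Agent.Results.MP_1debac_an.Yes

open Set Real Pool.Agent.H.MP_159dfd_an

theorem dir {μ : ℝ} {f g : ℝ → ℝ} (h : Sol μ π f g) (h1 : μ < 1) (f0 : f 0 = 0) (f1 : f π = 0) :
    ∀ x ∈ Icc 0 π, f x = 0 ∧ g x = 0 := by
  have m : π ∈ Icc 0 π := right_mem_Icc.2 pi_pos.le
  refine h.zero f0 ?_
  rcases lt_trichotomy μ 0 with c | rfl | c
  · obtain ⟨k, k0, rfl⟩ : ∃ k, 0 < k ∧ μ = -k ^ 2 :=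
      ⟨√(-μ), sqrt_pos.2 (by linarith), by rw [sq_sqrt (by linarith)]; ring⟩
    have := (h.eq (p := fun x => g 0 / k * sinh (k * x)) (q := fun x => g 0 * cosh (k * x))
      (.of (fun x => (((hasDerivAt_id' x).const_mul k).sinh.const_mul _).congr_deriv (by field_simp))
        fun x => (((hasDerivAt_id' x).const_mul k).cosh.const_mul _).congr_deriv (by field_simp))
      (by simpa) (by simp) π m).1
    simpa [f1, k0.ne', pi_pos.ne'] using this
  · have := (h.eq (p := fun x => g 0 * x) (q := fun _ => g 0)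
      (.of (fun x => ((hasDerivAt_id' x).const_mul _).congr_deriv (by ring))
        fun x => (hasDerivAt_const _ _).congr_deriv (by ring)) (by simpa) rfl π m).1
    simpa [f1, pi_pos.ne'] using this
  · have k0 := sqrt_pos.2 c
    have k1 : √μ < 1 := (sqrt_lt' one_pos).2 (by linarith)
    rw [← sq_sqrt c.le] at h
    obtain ⟨b, b1, b2⟩ := h.trig k0.ne'
    have := (b2 π m).1
    have s0 : 0 < sin (√μ * π) := sin_pos_of_pos_of_lt_pi (by positivity) (by nlinarith [pi_pos])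
    simp [f0, f1, s0.ne'] at this
    simp [b1, this]

/-- sources -/
def s : Fin 2 → Fin 2 := fun _ => 0
/-- targets -/
def t : Fin 2 → Fin 2 := fun _ => 1
/-- strengths -/
def α : Fin 2 → ℝ := ![2, -2]

theorem eig (x : ℝ) : Eig s t (fun _ => π) α 1
    fun e y => cos x * cos y + ![sin x, 2 * cos x - sin x] e * sin y := by
  refine ⟨_, ![cos x, -cos x], fun e => trig1 _ _ _, fun e => by simp [s, t], fun v => ?_, ?_⟩
  · fin_cases v <;> simp [s, t, α]
  · by_cases h : cos x = 0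
    · refine ⟨0, π / 2, ⟨by positivity, half_le_self pi_pos.le⟩, fun e => ?_⟩
      have := sin_sq_add_cos_sq x
      simp at e
      simp [h, e] at this
    · exact ⟨0, 0, left_mem_Icc.2 pi_pos.le, by simpa⟩

theorem low {ν : ℝ} {f : Fin 2 → ℝ → ℝ} (h : Eig s t (fun _ => π) α ν f) (h1 : ν < 1) :
    ν = -1 := by
  obtain ⟨g, u, h2, h3, h4, e, x, h5, h6⟩ := h
  have v0 := h4 0
  have v1 := h4 1
  simp [s, t, α] at v0 v1 h3
  have d := dir ((h2 0).lin (h2 1) 1 (-1)) h1 (by linarith [h3.1.1, h3.2.1])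
    (by linarith [h3.1.2, h3.2.2])
  have m : π ∈ Icc 0 π := right_mem_Icc.2 pi_pos.le
  have m0 : 0 ∈ Icc 0 π := left_mem_Icc.2 pi_pos.le
  have := dir (f := fun x => g 0 x - f 0 x) (g := fun x => -ν * f 0 x - g 0 x)
    (fun x hx => ⟨(h2 0 x hx).2.sub (h2 0 x hx).1,
      (((h2 0 x hx).1.const_mul _).sub (h2 0 x hx).2).congr_deriv (by ring)⟩) h1
    (by linarith [h3.1.1, (d 0 m0).2]) (by linarith [h3.1.2, (d π m).2]) x h5
  have f0 : f 0 x ≠ 0 := by
    fin_cases e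
    · exact h6
    · exact fun c => h6 (by simp; linarith [(d x h5).1])
  exact mul_right_cancel₀ f0 (by linarith [this.1, this.2])

theorem result : ∃ (n m : ℕ) (s t : Fin m → Fin n) (L : Fin m → ℝ) (α : Fin n → ℝ) (μ₁ μ₂ : ℝ),
    (∀ e, 0 < L e) ∧ Conn s t univ ∧ α ≠ 0 ∧ IsLeast {ν | ∃ f, Eig s t L α ν f} μ₁ ∧
    IsLeast {ν | μ₁ < ν ∧ ∃ f, Eig s t L α ν f} μ₂ ∧
    (∃ e, (Hot s t L α μ₂ e).Infinite) ∧ ∃ e, ∃ x ∈ Icc 0 (L e), x ∉ Hot s t L α μ₂ e := by
  have m : π ∈ Icc 0 π := right_mem_Icc.2 pi_pos.le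
  have m0 : 0 ∈ Icc 0 π := left_mem_Icc.2 pi_pos.le
  have h2 : π / 2 ∈ Icc 0 π := ⟨by positivity, half_le_self pi_pos.le⟩
  refine ⟨2, 2, s, t, fun _ => π, α, -1, 1, fun _ => pi_pos, fun a b => ?_,
    fun h => by simpa [α] using congrFun h 0, ⟨⟨fun _ => exp, fun _ => exp, ![1, exp π],
      fun _ => .of hasDerivAt_exp fun x => by simpa using hasDerivAt_exp x, fun e => by simp [s, t],
      fun v => ?_, 0, 0, m0, by simp⟩, fun ν ⟨f, h⟩ => ?_⟩,
    ⟨⟨by norm_num, _, eig 0⟩, fun ν ⟨h0, f, h⟩ => not_lt.1 fun c => h0.ne' (low h c)⟩,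
    ⟨0, (Icc_infinite (half_lt_self pi_pos)).mono fun x hx => ?_⟩, 0, 0, m0, ?_⟩
  · have : ∀ a, Relation.EqvGen (fun a b => ∃ e ∈ univ, s e = a ∧ t e = b) 0 a := fun a => by
      fin_cases a
      exacts [.refl _, .rel _ _ ⟨0, trivial, rfl, rfl⟩]
    exact (this a).symm.trans _ _ _ (this b)
  · fin_cases v <;> simp [s, t, α]
  · by_contra c
    linarith [low h (by linarith)]
  · have x0 := h2.1.trans hx.1
    have c0 := cos_nonpos_of_pi_div_two_le_of_le hx.1 (by linarith [hx.2])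
    have s0 := sin_nonneg_of_nonneg_of_le_pi x0 hx.2
    refine ⟨⟨x0, hx.2⟩, _, eig x, Or.inl fun d y hy => ?_⟩
    have sy := sin_nonneg_of_nonneg_of_le_pi hy.1 hy.2
    have := sin_sq_add_cos_sq x
    have := cos_le_one (x - y)
    rw [cos_sub] at this
    fin_cases d <;> simp <;> nlinarith
  · rintro ⟨-, f, ⟨g, u, h1, h3, h4, e, x, h5, h6⟩, hf⟩
    choose b b1 b2 using fun e => Sol.trig (k := 1) (by simpa using h1 e) one_ne_zero
    have v0 := h4 0
    simp [s, t, α, b1] at v0 h3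
    have z : ∀ e, f e 0 = u 0 := fun e => by fin_cases e; exacts [h3.1.1, h3.2.1]
    simp only [z, one_mul] at b2 hf
    have B := (b2 0 π m).1
    have C := (b2 0 _ h2).1
    have D := (b2 1 _ h2).1
    have G := (b2 0 (π / 4) ⟨by positivity, by linarith [pi_pos]⟩).1
    have G' := (b2 1 (π / 4) ⟨by positivity, by linarith [pi_pos]⟩).1
    simp at B C D G G'
    have r : 1 < √2 := one_lt_sqrt_two
    have : u 0 = 0 ∧ b 0 = 0 ∧ b 1 = 0 := by
      rcases hf with hf | hf <;>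
      · have a1 := hf 0 π m
        have a2 := hf 0 _ h2
        have a3 := hf 1 _ h2
        have a4 := hf 0 (π / 4) ⟨by positivity, by linarith [pi_pos]⟩
        have a5 := hf 1 (π / 4) ⟨by positivity, by linarith [pi_pos]⟩
        have : u 0 = 0 := by
          have : (b 0 + b 1) * √2 = 2 * u 0 * √2 := by rw [v0]
          nlinarith
        exact ⟨this, by linarith, by linarith⟩
    refine h6 ?_
    rw [(b2 e x h5).1, this.1]
    fin_cases e <;> simp [this]

end Pool.Agent.Results.MP_1debac_an.Yes
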